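import Pool.Agent.Lib.MP_e1f7e2_al.FA.Iface

/-!
# LEMCP: Lemma C' from the reduced case
-/

set_option autoImplicit false

namespace Pool.Agent.Lib.MP_e1f7e2_al.FA.H72

variable {K : Type*} [Field K]

/-- a counterexample to Lemma C' -/
structure Bad (w : Fin 3 → ℝ) (ν : ℝ) (u v l : A K 3) : Prop where
  fr : Fr u v l
  red : Red w (sp u v l)
  lt : vd w (sp u v l) < ν
  mn : Mn w l u v
  co : dg w u + dg w v ≤ dg w l ∨ Df w l u ≤ dg w l - E w u v ∨ Df w l v ≤ dg w l - E w u v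
  ex : ∃ d ∈ B u v, 0 < dg w d ∧ ∃ q ∈ B u v, dg w (l * d - d * l + q) < dg w (l * d - d * l)

theorem Bad.swap {w : Fin 3 → ℝ} {ν : ℝ} {u v l : A K 3} (hF : Facts K w) (h : Bad w ν u v l) :
    Bad w ν v u l where
  fr := hF.f.p12 _ _ _ h.fr
  red := by rw [← hF.s.scomm]; exact h.red
  lt := by rw [← hF.s.scomm]; exact h.lt
  mn := by
    intro q hq
    rw [hF.s.bcomm] at hq
    exact h.mn q hq
  co := by
    rw [hF.e.comm v u]
    rcases h.co with h1 | h1 | h1
    · left
      linarith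
    · exact Or.inr (Or.inr h1)
    · exact Or.inr (Or.inl h1)
  ex := by
    rw [hF.s.bcomm v u]
    exact h.ex

theorem Bad.step {w : Fin 3 → ℝ} {ν : ℝ} {u v l : A K 3} (hF : Facts K w) (hA : HA K w ν)
    (h : Bad w ν u v l) (hdv : Dv w u v) : ∃ u', Bad w ν u' v l ∧ dg w u' < dg w u := by
  have hu := hF.f.pos _ _ _ h.fr
  have hv := hF.f.pos _ _ _ (hF.f.p12 _ _ _ h.fr)
  obtain ⟨-, hcom, c, k, hc, hk, hdk, hlt⟩ := hF.e.dv' u v hu hdv
  obtain ⟨u', hu'⟩ : ∃ u', u' = u - c • v ^ k := ⟨_, rfl⟩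
  rw [← hu'] at hlt
  have e1 : u' = u + Polynomial.aeval v (-(Polynomial.C c * Polynomial.X ^ k)) := by
    rw [hu', map_neg, map_mul, map_pow, Polynomial.aeval_X, Polynomial.aeval_C,
      ← Algebra.smul_def, sub_eq_add_neg]
  have e2 : u' = (1 : K) • u + Polynomial.aeval v (-(Polynomial.C c * Polynomial.X ^ k)) := by
    rw [one_smul]
    exact e1
  have hB : B u' v = B u v := by
    rw [e2]
    exact hF.s.bel u v 1 _ one_ne_zero
  have hE : E w u' v = E w u v := by
    rw [e1]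
    exact hF.e.addp _ _ _
  have hfr1 : Fr v l u := hF.f.p23 _ _ _ (hF.f.p12 _ _ _ h.fr)
  have hmem : u' - u ∈ B v l := by
    rw [e1, add_sub_cancel_left]
    have := hF.s.bpoly l v (-(Polynomial.C c * Polynomial.X ^ k))
    rw [hF.s.bcomm] at this
    exact this
  obtain ⟨hfr2, hadj⟩ := hF.f.adjm v l u u' hfr1 hmem
  have hsp : ∀ x : A K 3, sp v l x = sp x v l := by
    intro x
    rw [hF.s.scomm' v l x, hF.s.scomm v x l]
  have hfr' : Fr u' v l := hF.f.p12 _ _ _ (hF.f.p23 _ _ _ hfr2)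
  rw [hsp, hsp] at hadj
  refine ⟨u', ⟨hfr', hA _ _ h.lt h.red hadj, ?_, ?_, ?_, ?_⟩, hlt⟩
  · rcases Nat.lt_or_ge k 2 with h2 | h2
    · have hk1 : k = 1 := by omega
      have h3 : sp v l u' = sp v l u := by
        have h4 := hF.s.sel v l u (- c • v) 1 one_ne_zero (by
          rw [hF.s.linmem]
          exact ⟨-c, 0, 0, by simp⟩)
        rw [one_smul] at h4
        rw [← h4, hu', hk1, pow_one]
        congr 1
        rw [neg_smul]
        abel
      rw [hsp, hsp] at h3
      rw [h3]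
      exact h.lt
    · have hne : dg w u ≠ dg w v := by
        have h2' : (2 : ℝ) ≤ k := by exact_mod_cast h2
        intro h5
        rw [h5] at hdk
        nlinarith
      have hor2 := hF.o.or2ne u v hu hv hne
      have hor3 := hF.o.mn3 u v l h.fr hor2 (fun r hr => h.mn r (hF.s.linB _ _ _ hr))
      have h6 := hF.v.eq u v l h.fr hor3
      have h7 := hF.v.le u' v l hfr'
      have h8 := h.lt
      linarith
  · intro q hq
    rw [hB] at hq
    exact h.mn q hq
  · rw [hE]
    rcases h.co with h1 | h1 | h1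
    · left
      linarith
    · have h9 := hF.e.ult l v u (hF.f.nc l u v (hF.f.p12 _ _ _ (hF.f.p23 _ _ _ h.fr))) hv
      rcases min_le_iff.mp h9 with h10 | h10
      · exact Or.inr (Or.inr (h10.trans h1))
      · left
        have h11 := h10.trans h1
        unfold Df at h11
        rw [hF.e.comm v u] at h11
        linarith
    · exact Or.inr (Or.inr h1)
  · rw [hB]
    exact h.ex

theorem lemcp (K : Type*) [Field K] (w : Fin 3 → ℝ) (_hw : Gen w) (hF : Facts K w)
    (hC : CpredStatement K w) : LemcpStatement K w := by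
  intro ν hA hB hLB u v l h1 h2 h3 h4 h5 h6
  obtain ⟨s, hs⟩ : ∃ s : Set (A K 3), s = {p | ∃ u v l : A K 3, Bad w ν u v l ∧ p = u * v} :=
    ⟨_, rfl⟩
  have hne : s.Nonempty := ⟨u * v, by rw [hs]; exact ⟨u, v, l, ⟨h1, h2, h3, h4, h5, h6⟩, rfl⟩⟩
  obtain ⟨p, hp, hmin⟩ := hF.d.minim s hne
  rw [hs] at hp
  obtain ⟨u, v, l, hb, rfl⟩ := hp
  have key : ∀ u v l : A K 3, Bad w ν u v l → dg w (u * v) = dg w u + dg w v := by
    intro u v l hb
    apply hF.d.mul
    · intro h0
      have := hF.f.pos _ _ _ hb.fr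
      rw [h0, hF.d.zero] at this
      exact lt_irrefl _ this
    · intro h0
      have := hF.f.pos _ _ _ (hb.swap hF).fr
      rw [h0, hF.d.zero] at this
      exact lt_irrefl _ this
  have nodv : ∀ u v l : A K 3, Bad w ν u v l → (∀ g ∈ s, dg w (u * v) ≤ dg w g) → ¬ Dv w u v := by
    intro u v l hb hm hdv
    obtain ⟨u', hb', hlt⟩ := hb.step hF hA hdv
    have := hm (u' * v) (by rw [hs]; exact ⟨u', v, l, hb', rfl⟩)
    rw [key u v l hb, key u' v l hb'] at this
    linarith
  refine hC ν u v l hA hB hLB hb.fr hb.red hb.lt hb.mn (nodv u v l hb hmin) ?_ hb.co hb.ex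
  apply nodv v u l (hb.swap hF)
  intro g hg
  have := hmin g hg
  rw [key v u l (hb.swap hF)]
  rw [key u v l hb] at this
  linarith

end Pool.Agent.Lib.MP_e1f7e2_al.FA.H72
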